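import Pool.Agent.H37.CP.Targets

/-! Row MASX of `cpe_modules`: the total mass. -/

set_option autoImplicit false

namespace Pool.Agent.H2.CPE

open Finset Pool.Agent.H37.CP
open Pool.Agent.H1.LP (Clause viol Loc Sys supp ip)
open Pool.Agent.H96.KX (psz fac jun PDz)
open Pool.Agent.H91.AV (MomInd rhx bix kap)

theorem pf_MASX : S_MASX := by
  intro U _ _ B D x
  have h1 : ∀ z0 : Fin B → ZMod 2, ∑ y : Fin B → U → ZMod 2, D (fun i => y i (x i)) =
      ∑ y : Fin B → U → ZMod 2, D ((fun i => y i (x i)) + z0) := by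
    intro z0
    rw [← Equiv.sum_comp (Equiv.addRight (fun i (_ : U) => z0 i : Fin B → U → ZMod 2))
      (fun y : Fin B → U → ZMod 2 => D (fun i => y i (x i)))]
    rfl
  have hcard : (Fintype.card (Fin B → ZMod 2) : ℝ) = 2 ^ B := by
    rw [Fintype.card_fun, ZMod.card, Fintype.card_fin]
    push_cast
    rfl
  have h2 : ∑ z0 : Fin B → ZMod 2, ∑ y : Fin B → U → ZMod 2, D (fun i => y i (x i)) =
      ∑ z0 : Fin B → ZMod 2, ∑ y : Fin B → U → ZMod 2, D ((fun i => y i (x i)) + z0) :=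
    Finset.sum_congr rfl (fun z0 _ => h1 z0)
  rw [Finset.sum_const, Finset.card_univ, nsmul_eq_mul, hcard, Finset.sum_comm] at h2
  rw [mul_comm, h2]
  have h3 : ∀ y : Fin B → U → ZMod 2, ∑ z0 : Fin B → ZMod 2, D ((fun i => y i (x i)) + z0) =
      ∑ z, D z := by
    intro y
    exact Equiv.sum_comp (Equiv.addLeft (fun i => y i (x i) : Fin B → ZMod 2)) D
  rw [Finset.sum_congr rfl (fun y _ => h3 y), Finset.sum_const, Finset.card_univ, nsmul_eq_mul]

end Pool.Agent.H2.CPE
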