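import Pool.Agent.H37.CP.Targets

/-! Row MAXI of `cpe_modules`: the maximal inequality. -/

set_option autoImplicit false

namespace Pool.Agent.H2.CPE

open Finset Pool.Agent.H37.CP
open Pool.Agent.H1.LP (Clause viol Loc Sys supp ip)
open Pool.Agent.H96.KX (psz fac jun PDz)
open Pool.Agent.H91.AV (MomInd rhx bix kap)

lemma row_nil {Y X : Type} (B : Finset X) (y : Y) : row ([] : List (Cmp Y X)) B y = B := by
  classical
  unfold row
  rw [Finset.filter_true_of_mem]
  intro x _ c hc
  exact absurd hc (List.not_mem_nil)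

open Classical in
lemma sum_row {Y X : Type} (L : List (Cmp Y X)) (B : Finset X) (y : Y) (g : X → ℝ) :
    ∑ x ∈ row L B y, g x = ∑ x ∈ B, if (∀ c ∈ L, c.H y x) then g x else 0 := by
  unfold row
  rw [Finset.sum_filter]

open Classical in
lemma sum_row_cons {Y X : Type} (c : Cmp Y X) (L : List (Cmp Y X)) (B : Finset X) (y : Y) (g : X → ℝ) :
    ∑ x ∈ row (c :: L) B y, g x =
      ∑ x ∈ row [c] B y, if (∀ c ∈ L, c.H y x) then g x else 0 := by
  rw [sum_row, sum_row]
  refine Finset.sum_congr rfl (fun x _ => ?_)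
  by_cases h1 : c.H y x
  · by_cases h2 : ∀ c ∈ L, c.H y x
    · rw [if_pos, if_pos, if_pos h2]
      · intro c' hc'; rw [List.mem_singleton] at hc'; rw [hc']; exact h1
      · intro c' hc'
        rcases List.mem_cons.1 hc' with h | h
        · rw [h]; exact h1
        · exact h2 c' h
    · rw [if_neg, if_neg h2]
      · split_ifs <;> rfl
      · intro h; exact h2 (fun c' hc' => h c' (List.mem_cons_of_mem _ hc'))
  · rw [if_neg, if_neg]
    · intro h; exact h1 (h c (List.mem_singleton.2 rfl))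
    · intro h; exact h1 (h c (List.mem_cons_self))

theorem pf_MAXI (hC : S_CELL) (hW : S_WEI) : S_MAXI := by
  classical
  intro Y X _ _ φ κ A B0 hκ hyp L
  induction L with
  | nil =>
    intro B hB
    obtain ⟨T, h0, h1, h2⟩ := hyp B hB
    refine ⟨T, h0, ?_, ?_⟩
    · intro y hy; rw [row_nil]; exact h1 y hy
    · rw [List.length_nil, pow_zero, one_mul]; exact h2
  | cons c L ih =>
    intro B hB
    obtain ⟨L0, M, Bl, j, hBl, hj, hsum, hcard⟩ := hC Y X B c
    choose E hE0 hE1 hE2 using fun l i => ih (Bl l i) ((hBl l i).trans hB)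
    refine ⟨fun y => ∑ l ∈ range L0, E l (j y l) y, ?_, ?_, ?_⟩
    · intro y; exact Finset.sum_nonneg (fun l _ => hE0 _ _ _)
    · intro y hy
      rw [sum_row_cons, hsum y, ← Finset.sum_neg_distrib]
      refine Finset.sum_le_sum (fun l _ => ?_)
      rw [← sum_row]
      exact hE1 l (j y l) y hy
    · have hC0 : (0 : ℝ) ≤ 2048 ^ L.length * κ := by positivity
      have key : ∀ l ∈ range L0, ∑ y, E l (j y l) y ^ 4 ≤
          2048 ^ L.length * κ * (B.card : ℝ) ^ 2 / 2 ^ (L0 - 1 - l) := by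
        intro l hl
        have hl' : l < L0 := Finset.mem_range.1 hl
        have h1 : ∑ y, E l (j y l) y ^ 4 ≤ ∑ y, ∑ i ∈ range M, E l i y ^ 4 := by
          refine Finset.sum_le_sum (fun y _ => ?_)
          exact Finset.single_le_sum (f := fun i => E l i y ^ 4)
            (fun i _ => pow_nonneg (hE0 l i y) 4) (Finset.mem_range.2 (hj y l hl'))
        have h2 : ∑ y, ∑ i ∈ range M, E l i y ^ 4 ≤
            2048 ^ L.length * κ * ∑ i ∈ range M, ((Bl l i).card : ℝ) ^ 2 := by
          rw [Finset.sum_comm, Finset.mul_sum]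
          exact Finset.sum_le_sum (fun i _ => hE2 l i)
        have h3 := hcard l hl'
        have h2p : (0 : ℝ) < 2 ^ (L0 - 1 - l) := by positivity
        have h4 : ∑ i ∈ range M, ((Bl l i).card : ℝ) ^ 2 ≤ (B.card : ℝ) ^ 2 / 2 ^ (L0 - 1 - l) := by
          rw [le_div_iff₀ h2p]; exact h3
        calc ∑ y, E l (j y l) y ^ 4 ≤ 2048 ^ L.length * κ * ∑ i ∈ range M, ((Bl l i).card : ℝ) ^ 2 :=
              h1.trans h2
          _ ≤ 2048 ^ L.length * κ * ((B.card : ℝ) ^ 2 / 2 ^ (L0 - 1 - l)) :=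
              mul_le_mul_of_nonneg_left h4 hC0
          _ = _ := by rw [mul_div_assoc]
      have hX0 : (0 : ℝ) ≤ 2048 ^ L.length * κ * (B.card : ℝ) ^ 2 := by positivity
      calc ∑ y, (∑ l ∈ range L0, E l (j y l) y) ^ 4
          ≤ ∑ y, 512 * ∑ l ∈ range L0, (8 / 7 : ℝ) ^ (3 * (L0 - 1 - l)) * E l (j y l) y ^ 4 :=
            Finset.sum_le_sum (fun y _ => hW.1 L0 (fun l => E l (j y l) y) (fun l => hE0 _ _ _))
        _ = 512 * ∑ l ∈ range L0, (8 / 7 : ℝ) ^ (3 * (L0 - 1 - l)) * ∑ y, E l (j y l) y ^ 4 := by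
            rw [← Finset.mul_sum, Finset.sum_comm]
            congr 1
            refine Finset.sum_congr rfl (fun l _ => ?_)
            rw [Finset.mul_sum]
        _ ≤ 512 * ∑ l ∈ range L0, (8 / 7 : ℝ) ^ (3 * (L0 - 1 - l)) *
              (2048 ^ L.length * κ * (B.card : ℝ) ^ 2 / 2 ^ (L0 - 1 - l)) := by
            refine mul_le_mul_of_nonneg_left (Finset.sum_le_sum (fun l hl => ?_)) (by norm_num)
            exact mul_le_mul_of_nonneg_left (key l hl) (by positivity)
        _ = 512 * ((2048 ^ L.length * κ * (B.card : ℝ) ^ 2) *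
              ∑ l ∈ range L0, (8 / 7 : ℝ) ^ (3 * (L0 - 1 - l)) / 2 ^ (L0 - 1 - l)) := by
            congr 1
            rw [Finset.mul_sum]
            refine Finset.sum_congr rfl (fun l _ => ?_)
            ring
        _ ≤ 512 * ((2048 ^ L.length * κ * (B.card : ℝ) ^ 2) * 4) := by
            refine mul_le_mul_of_nonneg_left (mul_le_mul_of_nonneg_left (hW.2 L0) hX0) (by norm_num)
        _ = 2048 ^ (c :: L).length * κ * (B.card : ℝ) ^ 2 := by
            rw [List.length_cons, pow_succ]; ring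

end Pool.Agent.H2.CPE
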